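import Pool.Agent.H723R2.LSWWander
import Pool.Agent.H828R3.GP.Main

/-!
Wandering domains of the entire function of Letherman, Schleicher and Wood: all but
`O(X / y^(1/20))` of the integers `|n| ≤ X` have a Fatou component whose forward orbit contains the
Fatou component of an integer `|m| ≤ y`.
-/

set_option autoImplicit false

namespace Pool.Agent.Results.MP_071ec9_an.PowerSaving

open Filter Topology Pool.Agent.H384R2.Fatou Pool.Agent.H723R2.LSW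
open Pool.Agent.H319R3.GC (Adm Tm PP)

/-- multipliers of the `3x+1` map -/
def m3 : ℕ → ℤ := fun i => if i = 0 then 1 else 3

/-- offsets of the `3x+1` map -/
def r3 : ℕ → ℤ := fun i => if i = 0 then 0 else -1

theorem adm3 : Adm 2 m3 r3 where
  two_le := le_refl _
  cop := by
    intro i hi
    interval_cases i
    · simpa [m3] using isCoprime_one_left
    · simp only [m3]
      norm_num
  adm := by
    intro i hi
    interval_cases i
    · simp [m3, r3]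
    · simp only [m3, r3]
      norm_num
  contr := by
    unfold PP m3
    simp [Finset.prod_range_succ]
  big := by
    unfold PP m3
    simp [Finset.prod_range_succ]

theorem Tm_T : Tm 2 m3 r3 = T := by
  funext n
  unfold Tm T
  rcases Int.emod_two_eq_zero_or_one n with h | h
  · rw [if_pos h]
    have h1 : (n % ((2 : ℕ) : ℤ)).toNat = 0 := by omega
    rw [h1]
    simp only [m3, r3, if_true]
    push_cast
    omega
  · rw [if_neg (by omega)]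
    have h1 : (n % ((2 : ℕ) : ℤ)).toNat = 1 := by omega
    rw [h1]
    simp only [m3, r3, one_ne_zero, if_false]
    push_cast
    omega

/-- the exponent -/
theorem exp_ok : ∃ η : ℝ, 0 ≤ η ∧ η < 19 / 20 ∧
    (1 / 2 : ℝ) ^ (1 / 2 : ℝ) + (3 / 2 : ℝ) ^ (1 / 2 : ℝ) ≤ (2 : ℝ) ^ η := by
  set S : ℝ := (1 / 2 : ℝ) ^ (1 / 2 : ℝ) + (3 / 2 : ℝ) ^ (1 / 2 : ℝ) with hS
  have hA : (1 / 2 : ℝ) ^ (1 / 2 : ℝ) = √(1 / 2) := (Real.sqrt_eq_rpow _).symm
  have hB : (3 / 2 : ℝ) ^ (1 / 2 : ℝ) = √(3 / 2) := (Real.sqrt_eq_rpow _).symm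
  rw [hA, hB] at hS
  have h1 : √(1 / 2 : ℝ) ≤ 0.70711 := by
    rw [Real.sqrt_le_left (by norm_num)]; norm_num
  have h2 : √(3 / 2 : ℝ) ≤ 1.22475 := by
    rw [Real.sqrt_le_left (by norm_num)]; norm_num
  have h3 : (1 : ℝ) ≤ √(3 / 2 : ℝ) := by
    rw [Real.one_le_sqrt]; norm_num
  have hS1 : (1 : ℝ) ≤ S := by
    rw [hS]; have := Real.sqrt_nonneg (1 / 2 : ℝ); linarith
  have hS2 : S ≤ 1.93186 := by rw [hS]; linarith
  have hS20 : S ^ 20 < 2 ^ 19 := by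
    calc S ^ 20 ≤ (1.93186 : ℝ) ^ 20 := by gcongr
      _ < 2 ^ 19 := by norm_num
  refine ⟨Real.logb 2 S, Real.logb_nonneg (by norm_num) hS1, ?_, ?_⟩
  · have h4 : Real.logb 2 (S ^ 20) < Real.logb 2 (2 ^ 19) :=
      Real.logb_lt_logb (by norm_num) (by positivity) hS20
    rw [Real.logb_pow, Real.logb_pow, Real.logb_self_eq_one (by norm_num)] at h4
    push_cast at h4
    linarith
  · rw [Real.rpow_logb (by norm_num) (by norm_num) (by linarith)]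

theorem wild_iter {n : ℤ} (h : Wild n) (k : ℕ) : Wild (T^[k] n) := by
  intro i j hij
  rw [← Function.iterate_add_apply, ← Function.iterate_add_apply] at hij
  have := h _ _ hij
  omega

/-- **Main theorem.** -/
theorem result : ∃ C : ℝ, 0 < C ∧ ∀ X y : ℝ, 1 ≤ X → 1 ≤ y →
    ({n : ℤ | |(n : ℝ)| ≤ X ∧ ¬ ∃ (k : ℕ) (m : ℤ), |(m : ℝ)| ≤ y ∧ f₀^[k] (n : ℂ) = m}.ncard : ℝ)
      ≤ C * X / y ^ (1 / 20 : ℝ) ∧
    ({n : ℤ | |(n : ℝ)| ≤ X ∧ IsWanderingDomain f₀ (FatouComponent f₀ n) ∧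
        ¬ ∃ (k : ℕ) (m : ℤ), |(m : ℝ)| ≤ y ∧ f₀^[k] (n : ℂ) = m ∧
          IsWanderingDomain f₀ (FatouComponent f₀ m)}.ncard : ℝ)
      ≤ C * X / y ^ (1 / 20 : ℝ) ∧
    ((∀ m : ℤ, |(m : ℝ)| ≤ y → ¬ IsWanderingDomain f₀ (FatouComponent f₀ m)) →
      ({n : ℤ | |(n : ℝ)| ≤ X ∧ IsWanderingDomain f₀ (FatouComponent f₀ n)}.ncard : ℝ)
        ≤ C * X / y ^ (1 / 20 : ℝ)) := by
  obtain ⟨η, h0, h1, h2⟩ := exp_ok
  obtain ⟨C, hC, h⟩ := Pool.Agent.H828R3.GP.power_saving adm3 (s := 1 / 2) (η := η) (by norm_num)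
    h0 (by linarith) (by
      rw [Finset.sum_range_succ, Finset.sum_range_one]
      simp only [m3]
      norm_num
      norm_num at h2
      exact h2) (c := 1 / 20) (by norm_num) (by linarith)
  rw [Tm_T] at h
  refine ⟨C, hC, fun X y hX hy => ?_⟩
  have hfin : {x : ℤ | |(x : ℝ)| ≤ X ∧ ∀ k : ℕ, y < |((T^[k] x : ℤ) : ℝ)|}.Finite := by
    apply (Set.finite_Icc (-⌈X⌉) ⌈X⌉).subset
    rintro x ⟨hx, -⟩
    have h1 := abs_le.1 hx
    have h2 := Int.le_ceil X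
    rw [Set.mem_Icc]
    constructor
    · have : (-(⌈X⌉ : ℤ) : ℝ) ≤ x := by linarith
      exact_mod_cast this
    · have : (x : ℝ) ≤ (⌈X⌉ : ℤ) := by linarith
      exact_mod_cast this
  refine ⟨?_, ?_, fun hno => ?_⟩
  · refine le_trans ?_ (h X y hX hy)
    have hsub : {n : ℤ | |(n : ℝ)| ≤ X ∧
        ¬ ∃ (k : ℕ) (m : ℤ), |(m : ℝ)| ≤ y ∧ f₀^[k] (n : ℂ) = m} ⊆
        {x : ℤ | |(x : ℝ)| ≤ X ∧ ∀ k : ℕ, y < |((T^[k] x : ℤ) : ℝ)|} := by
      rintro n ⟨ha, hb⟩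
      refine ⟨ha, fun k => ?_⟩
      by_contra hk
      exact hb ⟨k, T^[k] n, not_lt.1 hk, f₀_iter n k⟩
    exact_mod_cast Set.ncard_le_ncard hsub hfin
  · refine le_trans ?_ (h X y hX hy)
    have hsub : {n : ℤ | |(n : ℝ)| ≤ X ∧ IsWanderingDomain f₀ (FatouComponent f₀ n) ∧
        ¬ ∃ (k : ℕ) (m : ℤ), |(m : ℝ)| ≤ y ∧ f₀^[k] (n : ℂ) = m ∧
          IsWanderingDomain f₀ (FatouComponent f₀ m)} ⊆
        {x : ℤ | |(x : ℝ)| ≤ X ∧ ∀ k : ℕ, y < |((T^[k] x : ℤ) : ℝ)|} := by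
      rintro n ⟨ha, hw, hb⟩
      refine ⟨ha, fun k => ?_⟩
      by_contra hk
      exact hb ⟨k, T^[k] n, not_lt.1 hk, f₀_iter n k,
        (wandering_iff _).2 (wild_iter ((wandering_iff n).1 hw) k)⟩
    exact_mod_cast Set.ncard_le_ncard hsub hfin
  · refine le_trans ?_ (h X y hX hy)
    have hsub : {n : ℤ | |(n : ℝ)| ≤ X ∧ IsWanderingDomain f₀ (FatouComponent f₀ n)} ⊆
        {x : ℤ | |(x : ℝ)| ≤ X ∧ ∀ k : ℕ, y < |((T^[k] x : ℤ) : ℝ)|} := by
      rintro n ⟨ha, hw⟩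
      refine ⟨ha, fun k => ?_⟩
      by_contra hk
      exact hno _ (not_lt.1 hk) ((wandering_iff _).2 (wild_iter ((wandering_iff n).1 hw) k))
    exact_mod_cast Set.ncard_le_ncard hsub hfin

end Pool.Agent.Results.MP_071ec9_an.PowerSaving
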